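import Pool.Agent.H30PX.Scale
import Pool.Agent.H715R2.Units

/-!
# Counting in the boxes of the height with normalized absolute values
-/

set_option autoImplicit false
set_option linter.all false

open Polynomial IsDedekindDomain NumberField
open scoped Classical

namespace Pool.Agent.H30PX

open Pool.Agent.N783.PF (Bd fF Ht SelZero Min Good)
open Pool.Agent.N61.PF (pol disc_ne fF_eq eq_pol)

variable {F : Type} [Field F] [NumberField F]

/-- The box: `|a|_v ^ 3 ≤ X` and `|b|_v ^ 2 ≤ X` for all infinite places. -/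
structure Box (X : ℝ) (p : 𝓞 F × 𝓞 F) : Prop where
  disc : 4 * p.1 ^ 3 + 27 * p.2 ^ 2 ≠ 0
  ht : ∀ v : InfinitePlace F, (v (p.1 : F) ^ v.mult) ^ 3 ≤ X ∧ (v (p.2 : F) ^ v.mult) ^ 2 ≤ X

/-- Scaling by a unit. -/
def sc (u : (𝓞 F)ˣ) (p : 𝓞 F × 𝓞 F) : 𝓞 F × 𝓞 F := ((u : 𝓞 F) ^ 4 * p.1, (u : 𝓞 F) ^ 6 * p.2)

theorem sc_inj (u : (𝓞 F)ˣ) : Function.Injective (sc u) := by
  intro p q h
  unfold sc at h
  have e := Prod.mk.injEq .. ▸ h
  refine Prod.ext ?_ ?_
  · exact mul_left_cancel₀ (pow_ne_zero _ u.ne_zero) e.1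
  · exact mul_left_cancel₀ (pow_ne_zero _ u.ne_zero) e.2

theorem sc_sc (u : (𝓞 F)ˣ) (p : 𝓞 F × 𝓞 F) : sc u (sc u⁻¹ p) = p := by
  unfold sc
  refine Prod.ext ?_ ?_
  · show (u : 𝓞 F) ^ 4 * ((u⁻¹ : (𝓞 F)ˣ) ^ 4 * p.1) = p.1
    rw [← mul_assoc, ← mul_pow, Units.mul_inv, one_pow, one_mul]
  · show (u : 𝓞 F) ^ 6 * ((u⁻¹ : (𝓞 F)ˣ) ^ 6 * p.2) = p.2
    rw [← mul_assoc, ← mul_pow, Units.mul_inv, one_pow, one_mul]

theorem sc_disc (u : (𝓞 F)ˣ) (p : 𝓞 F × 𝓞 F) :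
    4 * (sc u p).1 ^ 3 + 27 * (sc u p).2 ^ 2 = (u : 𝓞 F) ^ 12 * (4 * p.1 ^ 3 + 27 * p.2 ^ 2) := by
  unfold sc
  ring

theorem cubic_scale {K : Type} [Field K] (a b u : K) :
    (X ^ 3 + C a * X + C b : K[X]).scaleRoots (u ^ 2) =
      X ^ 3 + C (u ^ 4 * a) * X + C (u ^ 6 * b) := by
  have hd : (X ^ 3 + C a * X + C b : K[X]).natDegree = 3 := by compute_degree!
  ext n
  rw [coeff_scaleRoots, hd]
  simp only [coeff_add, coeff_X_pow, coeff_C_mul, coeff_X, coeff_C]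
  rcases n with _ | _ | _ | _ | n
  · simp
    ring
  · simp
    ring
  · simp
  · simp
  · simp

theorem good_sc {B : ℕ} {f : (𝓞 F)[X]} (h : Ht 1 B f) (hirr : Irreducible (fF f))
    (hsel : SelZero f) (u : (𝓞 F)ˣ) : Good (sc u (f.coeff 1, f.coeff 0)) := by
  have hu : ((u : 𝓞 F) : F) ≠ 0 := by
    intro h0
    exact u.ne_zero (RingOfIntegers.ext (by rw [h0]; rfl))
  have hm : (fF f).Monic := by
    unfold fF
    exact h.mon.map _
  have h1 : Irreducible ((fF f).scaleRoots (((u : 𝓞 F) : F) ^ 2)) :=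
    Pool.Agent.N170.PF.irr_scale (pow_ne_zero _ hu) hirr
  have h2 : Pool.Agent.N874.QM.SelM F ((fF f).scaleRoots (((u : 𝓞 F) : F) ^ 2)) :=
    selM_scale hm hu hsel
  have e1 : (((sc u (f.coeff 1, f.coeff 0)).1 : 𝓞 F) : F) =
      ((u : 𝓞 F) : F) ^ 4 * ((f.coeff 1 : 𝓞 F) : F) := by
    show algebraMap (𝓞 F) F ((u : 𝓞 F) ^ 4 * f.coeff 1) = _
    rw [map_mul, map_pow]
  have e2 : (((sc u (f.coeff 1, f.coeff 0)).2 : 𝓞 F) : F) =
      ((u : 𝓞 F) : F) ^ 6 * ((f.coeff 0 : 𝓞 F) : F) := by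
    show algebraMap (𝓞 F) F ((u : 𝓞 F) ^ 6 * f.coeff 0) = _
    rw [map_mul, map_pow]
  have h3 : (fF f).scaleRoots (((u : 𝓞 F) : F) ^ 2) =
      X ^ 3 + C (((sc u (f.coeff 1, f.coeff 0)).1 : 𝓞 F) : F) * X +
        C (((sc u (f.coeff 1, f.coeff 0)).2 : 𝓞 F) : F) := by
    rw [fF_eq h, cubic_scale, e1, e2]
  rw [h3] at h1 h2
  have hd := disc_ne h1
  have hs := Pool.Agent.N783.PF.selc F _ _ hd h1 h2
  obtain ⟨hdiv, hsha⟩ := Pool.Agent.N713.QM.gfc F _ _ hd hs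
  obtain ⟨hf, ho⟩ := Pool.Agent.N459.QM.finc F _ _ hd hdiv
  exact ⟨hs, hsha, hf, ho⟩

/-! ### The balancing unit -/

theorem place_emb (v : InfinitePlace F) (x : F) : v x = ‖v.embedding x‖ :=
  (InfinitePlace.norm_embedding_eq v x).symm

theorem bd_iff (x : F) (R : ℝ) : Bd x R ↔ ∀ v : InfinitePlace F, v x ≤ R := by
  constructor
  · intro h v
    rw [place_emb]
    exact h _
  · intro h σ
    have := h (InfinitePlace.mk σ)
    rwa [InfinitePlace.apply] at this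

/-- The number of infinite places divided by the degree. -/
noncomputable def rd (F : Type) [Field F] [NumberField F] : ℝ :=
  (Fintype.card (InfinitePlace F) : ℝ) / (Module.finrank ℚ F : ℝ)

theorem fr_pos : (0 : ℝ) < (Module.finrank ℚ F : ℝ) := by
  exact_mod_cast Module.finrank_pos (R := ℚ) (M := F)

theorem rd_pos : 0 < rd F := by
  unfold rd
  have h1 : (0 : ℝ) < (Fintype.card (InfinitePlace F) : ℝ) := by
    exact_mod_cast Fintype.card_pos
  exact div_pos h1 fr_pos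

theorem mult_pos (v : InfinitePlace F) : (0 : ℝ) < (v.mult : ℝ) := by
  exact_mod_cast v.mult_pos

/-- A unit which balances the box. -/
theorem exists_bal (F : Type) [Field F] [NumberField F] : ∃ R : ℝ, 0 ≤ R ∧ ∀ L : ℝ,
    ∃ u : (𝓞 F)ˣ, ∀ v : InfinitePlace F,
      Real.exp ((L / v.mult - rd F * L) / 2 - R) ≤ v ((u : 𝓞 F) : F) ∧
      v ((u : 𝓞 F) : F) ≤ Real.exp ((L / v.mult - rd F * L) / 2 + R) := by
  obtain ⟨R, hR, h⟩ := H715R2.exists_unit_near F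
  refine ⟨R, hR, fun L => ?_⟩
  obtain ⟨u, hu⟩ := h (fun v => (L / v.mult - rd F * L) / 2) (by
    have e : ∀ v : InfinitePlace F, (v.mult : ℝ) * ((L / v.mult - rd F * L) / 2) =
        L / 2 - (v.mult : ℝ) * (rd F * L / 2) := by
      intro v
      have := (mult_pos v).ne'
      field_simp
    rw [Finset.sum_congr rfl fun v _ => e v, Finset.sum_sub_distrib, ← Finset.sum_mul]
    have h1 : ∑ v : InfinitePlace F, (v.mult : ℝ) = (Module.finrank ℚ F : ℝ) := by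
      exact_mod_cast InfinitePlace.sum_mult_eq (K := F)
    rw [h1, Finset.sum_const, Finset.card_univ, nsmul_eq_mul]
    unfold rd
    have := (fr_pos (F := F)).ne'
    field_simp
    ring)
  refine ⟨u, fun v => ?_⟩
  have h2 := abs_le.1 (hu v)
  have h3 : 0 < v ((u : 𝓞 F) : F) := Units.pos_at_place u v
  constructor
  · rw [← Real.le_log_iff_exp_le h3]
    linarith [h2.1]
  · rw [← Real.log_le_iff_le_exp h3]
    linarith [h2.2]

/-! ### The boxes -/

theorem nn (v : InfinitePlace F) (x : F) : 0 ≤ v x := apply_nonneg v x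

/-- The bounds at a place in terms of the logarithm. -/
theorem box_iff {v : InfinitePlace F} {L x : ℝ} (hx : 0 ≤ x) {k m : ℕ} (hk : 0 < k)
    (hm : m * k = 6) : (x ^ v.mult) ^ k ≤ Real.exp (6 * L) ↔ x ≤ Real.exp (m * (L / v.mult)) := by
  have hkv : v.mult * k ≠ 0 := Nat.mul_ne_zero v.mult_pos.ne' hk.ne'
  have e : Real.exp (6 * L) = Real.exp (m * (L / v.mult)) ^ (v.mult * k) := by
    rw [← Real.exp_nat_mul]
    congr 1
    push_cast
    have := (mult_pos v).ne'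
    field_simp
    have h6 : (m : ℝ) * k = 6 := by exact_mod_cast hm
    linear_combination (-L) * h6
  rw [← pow_mul, e]
  exact pow_le_pow_iff_left₀ hx (Real.exp_pos _).le hkv

theorem box_iff' {X L : ℝ} (hX : X = Real.exp (6 * L)) (p : 𝓞 F × 𝓞 F) : Box X p ↔
    4 * p.1 ^ 3 + 27 * p.2 ^ 2 ≠ 0 ∧ ∀ v : InfinitePlace F,
      v (p.1 : F) ≤ Real.exp (2 * (L / v.mult)) ∧ v (p.2 : F) ≤ Real.exp (3 * (L / v.mult)) := by
  constructor
  · rintro ⟨h1, h2⟩
    refine ⟨h1, fun v => ⟨?_, ?_⟩⟩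
    · have := (box_iff (v := v) (L := L) (nn v (p.1 : F)) (k := 3) (m := 2) (by norm_num)
        (by norm_num)).1 (hX ▸ (h2 v).1)
      exact_mod_cast this
    · have := (box_iff (v := v) (L := L) (nn v (p.2 : F)) (k := 2) (m := 3) (by norm_num)
        (by norm_num)).1 (hX ▸ (h2 v).2)
      exact_mod_cast this
  · rintro ⟨h1, h2⟩
    refine ⟨h1, fun v => ⟨?_, ?_⟩⟩
    · rw [hX]
      refine (box_iff (v := v) (L := L) (nn v (p.1 : F)) (k := 3) (m := 2) (by norm_num)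
        (by norm_num)).2 ?_
      exact_mod_cast (h2 v).1
    · rw [hX]
      refine (box_iff (v := v) (L := L) (nn v (p.2 : F)) (k := 2) (m := 3) (by norm_num)
        (by norm_num)).2 ?_
      exact_mod_cast (h2 v).2

end Pool.Agent.H30PX
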