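import Pool.Agent.H30PX.Count

/-!
# A positive proportion in the ordering with normalized absolute values
-/

set_option autoImplicit false
set_option linter.all false

open Polynomial IsDedekindDomain NumberField
open scoped Classical

namespace Pool.Agent.H30PX

open Pool.Agent.N783.PF (Bd fF Ht SelZero Min Good)
open Pool.Agent.N61.PF (pol disc_ne fF_eq eq_pol)

variable {F : Type} [Field F] [NumberField F]

theorem box_mono {X Y : ℝ} (h : X ≤ Y) {p : 𝓞 F × 𝓞 F} (hp : Box X p) : Box Y p :=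
  ⟨hp.disc, fun v => ⟨(hp.ht v).1.trans h, (hp.ht v).2.trans h⟩⟩

theorem place_mul (v : InfinitePlace F) (x y : 𝓞 F) :
    v ((x * y : 𝓞 F) : F) = v (x : F) * v (y : F) := by
  show v (algebraMap (𝓞 F) F (x * y)) = _
  rw [map_mul, map_mul]

theorem place_pow (v : InfinitePlace F) (x : 𝓞 F) (n : ℕ) :
    v ((x ^ n : 𝓞 F) : F) = v (x : F) ^ n := by
  show v (algebraMap (𝓞 F) F (x ^ n)) = _
  rw [map_pow, map_pow]

theorem place_inv (v : InfinitePlace F) (u : (𝓞 F)ˣ) :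
    v (((u⁻¹ : (𝓞 F)ˣ) : 𝓞 F) : F) = (v ((u : 𝓞 F) : F))⁻¹ := by
  have h1 : ((u⁻¹ : (𝓞 F)ˣ) : 𝓞 F) * (u : 𝓞 F) = 1 := Units.inv_mul u
  have h2 := congrArg (fun x : 𝓞 F => v (x : F)) h1
  simp only [place_mul] at h2
  have h3 : v ((1 : 𝓞 F) : F) = 1 := by
    show v (algebraMap (𝓞 F) F 1) = 1
    rw [map_one, map_one]
  rw [h3] at h2
  exact eq_inv_of_mul_eq_one_left h2

/-- The members of the box, scaled back. -/
theorem sc_back {R L : ℝ} {u : (𝓞 F)ˣ} (hu : ∀ v : InfinitePlace F,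
      Real.exp ((L / v.mult - rd F * L) / 2 - R) ≤ v ((u : 𝓞 F) : F) ∧
      v ((u : 𝓞 F) : F) ≤ Real.exp ((L / v.mult - rd F * L) / 2 + R)) {p : 𝓞 F × 𝓞 F}
    (hp : ∀ v : InfinitePlace F,
      v (p.1 : F) ≤ Real.exp (2 * (L / v.mult)) ∧ v (p.2 : F) ≤ Real.exp (3 * (L / v.mult))) :
    Bd ((sc u⁻¹ p).1 : F) (Real.exp (2 * (rd F * L) + 4 * R)) ∧
    Bd ((sc u⁻¹ p).2 : F) (Real.exp (3 * (rd F * L) + 6 * R)) := by
  have h0 : ∀ v : InfinitePlace F, v (((u⁻¹ : (𝓞 F)ˣ) : 𝓞 F) : F) ≤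
      Real.exp (R - (L / v.mult - rd F * L) / 2) := by
    intro v
    rw [place_inv]
    refine (inv_anti₀ (Real.exp_pos _) (hu v).1).trans ?_
    rw [← Real.exp_neg]
    apply le_of_eq
    congr 1
    ring
  constructor
  · rw [bd_iff]
    intro v
    show v ((((u⁻¹ : (𝓞 F)ˣ) : 𝓞 F) ^ 4 * p.1 : 𝓞 F) : F) ≤ _
    rw [place_mul, place_pow]
    calc _ ≤ Real.exp (R - (L / v.mult - rd F * L) / 2) ^ 4 * Real.exp (2 * (L / v.mult)) :=
          mul_le_mul (pow_le_pow_left₀ (nn _ _) (h0 v) 4) (hp v).1 (nn _ _)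
            (pow_nonneg (Real.exp_pos _).le _)
      _ = _ := by
          rw [← Real.exp_nat_mul, ← Real.exp_add]
          congr 1
          push_cast
          ring
  · rw [bd_iff]
    intro v
    show v ((((u⁻¹ : (𝓞 F)ˣ) : 𝓞 F) ^ 6 * p.2 : 𝓞 F) : F) ≤ _
    rw [place_mul, place_pow]
    calc _ ≤ Real.exp (R - (L / v.mult - rd F * L) / 2) ^ 6 * Real.exp (3 * (L / v.mult)) :=
          mul_le_mul (pow_le_pow_left₀ (nn _ _) (h0 v) 6) (hp v).2 (nn _ _)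
            (pow_nonneg (Real.exp_pos _).le _)
      _ = _ := by
          rw [← Real.exp_nat_mul, ← Real.exp_add]
          congr 1
          push_cast
          ring

/-- The members of the cubical box, scaled. -/
theorem sc_forth {R L : ℝ} {u : (𝓞 F)ˣ} (hu : ∀ v : InfinitePlace F,
      Real.exp ((L / v.mult - rd F * L) / 2 - R) ≤ v ((u : 𝓞 F) : F) ∧
      v ((u : 𝓞 F) : F) ≤ Real.exp ((L / v.mult - rd F * L) / 2 + R)) {p : 𝓞 F × 𝓞 F} {B : ℕ}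
    (hB : (B : ℝ) ≤ Real.exp (rd F * L - 2 * R))
    (h1 : Bd (p.1 : F) ((B : ℝ) ^ 2)) (h2 : Bd (p.2 : F) ((B : ℝ) ^ 3)) (v : InfinitePlace F) :
      v ((sc u p).1 : F) ≤ Real.exp (2 * (L / v.mult)) ∧
      v ((sc u p).2 : F) ≤ Real.exp (3 * (L / v.mult)) := by
  rw [bd_iff] at h1 h2
  have hB0 : (0 : ℝ) ≤ B := Nat.cast_nonneg B
  constructor
  · show v (((u : 𝓞 F) ^ 4 * p.1 : 𝓞 F) : F) ≤ _
    rw [place_mul, place_pow]
    calc _ ≤ Real.exp ((L / v.mult - rd F * L) / 2 + R) ^ 4 * Real.exp (rd F * L - 2 * R) ^ 2 :=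
          mul_le_mul (pow_le_pow_left₀ (nn _ _) (hu v).2 4)
            ((h1 v).trans (pow_le_pow_left₀ hB0 hB 2)) (nn _ _)
            (pow_nonneg (Real.exp_pos _).le _)
      _ = _ := by
          rw [← Real.exp_nat_mul, ← Real.exp_nat_mul, ← Real.exp_add]
          congr 1
          push_cast
          ring
  · show v (((u : 𝓞 F) ^ 6 * p.2 : 𝓞 F) : F) ≤ _
    rw [place_mul, place_pow]
    calc _ ≤ Real.exp ((L / v.mult - rd F * L) / 2 + R) ^ 6 * Real.exp (rd F * L - 2 * R) ^ 3 :=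
          mul_le_mul (pow_le_pow_left₀ (nn _ _) (hu v).2 6)
            ((h2 v).trans (pow_le_pow_left₀ hB0 hB 3)) (nn _ _)
            (pow_nonneg (Real.exp_pos _).le _)
      _ = _ := by
          rw [← Real.exp_nat_mul, ← Real.exp_nat_mul, ← Real.exp_add]
          congr 1
          push_cast
          ring

/-- The upper bound for the number of the members of the box. -/
theorem box_upper {C : ℝ} (hC : 0 < C)
    (h2 : ∀ (𝔞 : Ideal (𝓞 F)) (b : 𝓞 F) (R : ℝ), 𝔞 ≠ ⊥ → 0 ≤ R →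
      {a : 𝓞 F | a - b ∈ 𝔞 ∧ Bd (a : F) R}.Finite ∧
      (({a : 𝓞 F | a - b ∈ 𝔞 ∧ Bd (a : F) R}.ncard : ℝ)) ≤
        C * (R ^ Module.finrank ℚ F / (Ideal.absNorm 𝔞 : ℝ) + 1)) {R L : ℝ} (hR : 0 ≤ R)
    (hL : 0 ≤ L) {u : (𝓞 F)ˣ} (hu : ∀ v : InfinitePlace F,
      Real.exp ((L / v.mult - rd F * L) / 2 - R) ≤ v ((u : 𝓞 F) : F) ∧
      v ((u : 𝓞 F) : F) ≤ Real.exp ((L / v.mult - rd F * L) / 2 + R)) :
    {p : 𝓞 F × 𝓞 F | Box (Real.exp (6 * L)) p}.Finite ∧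
    ({p : 𝓞 F × 𝓞 F | Box (Real.exp (6 * L)) p}.ncard : ℝ) ≤
      C ^ 2 * 4 * Real.exp ((Module.finrank ℚ F : ℝ) * (5 * (rd F * L) + 10 * R)) := by
  set d := Module.finrank ℚ F with hd
  have hrd := rd_pos (F := F)
  have hβ : 0 ≤ rd F * L := mul_nonneg hrd.le hL
  set R₁ : ℝ := Real.exp (2 * (rd F * L) + 4 * R) with hR₁
  set R₂ : ℝ := Real.exp (3 * (rd F * L) + 6 * R) with hR₂
  have hR₁0 : 1 ≤ R₁ := Real.one_le_exp (by linarith)
  have hR₂0 : 1 ≤ R₂ := Real.one_le_exp (by linarith)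
  obtain ⟨f1, n1⟩ := h2 ⊤ 0 R₁ top_ne_bot (by linarith)
  obtain ⟨f2, n2⟩ := h2 ⊤ 0 R₂ top_ne_bot (by linarith)
  rw [Ideal.absNorm_top, Nat.cast_one, div_one] at n1 n2
  set T : Set (𝓞 F × 𝓞 F) := {a : 𝓞 F | a - 0 ∈ (⊤ : Ideal (𝓞 F)) ∧ Bd (a : F) R₁} ×ˢ
        {a : 𝓞 F | a - 0 ∈ (⊤ : Ideal (𝓞 F)) ∧ Bd (a : F) R₂} with hT
  have hTf : T.Finite := f1.prod f2
  have hmap : ∀ p ∈ {p : 𝓞 F × 𝓞 F | Box (Real.exp (6 * L)) p}, sc u⁻¹ p ∈ T := by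
    intro p hp
    have h3 := ((box_iff' rfl p).1 hp).2
    obtain ⟨h4, h5⟩ := sc_back hu h3
    exact Set.mem_prod.mpr ⟨⟨Submodule.mem_top, h4⟩, ⟨Submodule.mem_top, h5⟩⟩
  have hfin : {p : 𝓞 F × 𝓞 F | Box (Real.exp (6 * L)) p}.Finite :=
    Set.Finite.of_injOn hmap ((sc_inj u⁻¹).injOn) hTf
  refine ⟨hfin, ?_⟩
  have h3 := Set.ncard_le_ncard_of_injOn (sc u⁻¹) hmap ((sc_inj u⁻¹).injOn) hTf
  rw [hT, Set.ncard_prod] at h3
  have h4 : ({p : 𝓞 F × 𝓞 F | Box (Real.exp (6 * L)) p}.ncard : ℝ) ≤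
      ({a : 𝓞 F | a - 0 ∈ (⊤ : Ideal (𝓞 F)) ∧ Bd (a : F) R₁}.ncard : ℝ) *
        ({a : 𝓞 F | a - 0 ∈ (⊤ : Ideal (𝓞 F)) ∧ Bd (a : F) R₂}.ncard : ℝ) := by
    exact_mod_cast h3
  have h5 : R₁ ^ d + 1 ≤ 2 * R₁ ^ d := by
    have := one_le_pow₀ hR₁0 (n := d); linarith
  have h6 : R₂ ^ d + 1 ≤ 2 * R₂ ^ d := by
    have := one_le_pow₀ hR₂0 (n := d); linarith
  calc ({p : 𝓞 F × 𝓞 F | Box (Real.exp (6 * L)) p}.ncard : ℝ) ≤ _ := h4
    _ ≤ (C * (R₁ ^ d + 1)) * (C * (R₂ ^ d + 1)) :=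
        mul_le_mul n1 n2 (Nat.cast_nonneg _) (by positivity)
    _ ≤ (C * (2 * R₁ ^ d)) * (C * (2 * R₂ ^ d)) := by gcongr
    _ = C ^ 2 * 4 * (R₁ ^ d * R₂ ^ d) := by ring
    _ = _ := by
        congr 1
        rw [hR₁, hR₂, ← Real.exp_nat_mul, ← Real.exp_nat_mul, ← Real.exp_add]
        congr 1
        ring

/-- The lower bound for the number of the good members of the box. -/
theorem box_lower {c C : ℝ} (hc : 0 < c) (hC : 0 < C)
    (h1 : ∀ R : ℝ, 1 ≤ R → {a : 𝓞 F | Bd (a : F) R}.Finite ∧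
      R ^ Module.finrank ℚ F ≤ C * ({a : 𝓞 F | Bd (a : F) R}.ncard : ℝ)) {B : ℕ} (hB1 : 1 ≤ B)
    (hm : {f : (𝓞 F)[X] | Ht 1 B f}.Finite ∧ c * ({f : (𝓞 F)[X] | Ht 1 B f}.ncard : ℝ) ≤
    ({f : (𝓞 F)[X] | Ht 1 B f ∧ Irreducible (fF f) ∧ SelZero f ∧ Min 1 f}.ncard : ℝ))
    {R L : ℝ} {u : (𝓞 F)ˣ} (hu : ∀ v : InfinitePlace F,
      Real.exp ((L / v.mult - rd F * L) / 2 - R) ≤ v ((u : 𝓞 F) : F) ∧
      v ((u : 𝓞 F) : F) ≤ Real.exp ((L / v.mult - rd F * L) / 2 + R))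
    (hB : (B : ℝ) ≤ Real.exp (rd F * L - 2 * R))
    (hfin : {p : 𝓞 F × 𝓞 F | Box (Real.exp (6 * L)) p}.Finite) :
    c * (B : ℝ) ^ (5 * Module.finrank ℚ F) ≤
      C ^ 2 * ({p : 𝓞 F × 𝓞 F | Box (Real.exp (6 * L)) p ∧ Good p}.ncard : ℝ) := by
  have hl := Pool.Agent.N61.PF.ht_lower hC h1 hB1 hm.1
  have h5 : ({f : (𝓞 F)[X] | Ht 1 B f ∧ Irreducible (fF f) ∧ SelZero f ∧ Min 1 f}.ncard : ℝ) ≤
      ({p : 𝓞 F × 𝓞 F | Box (Real.exp (6 * L)) p ∧ Good p}.ncard : ℝ) := by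
    have h6 := Set.ncard_le_ncard_of_injOn
      (fun f : (𝓞 F)[X] => sc u (f.coeff 1, f.coeff 0))
      (s := {f : (𝓞 F)[X] | Ht 1 B f ∧ Irreducible (fF f) ∧ SelZero f ∧ Min 1 f})
      (t := {p : 𝓞 F × 𝓞 F | Box (Real.exp (6 * L)) p ∧ Good p})
      (by
        rintro f ⟨hf, hirr, hsel, -⟩
        have hg := good_sc hf hirr hsel u
        refine ⟨?_, hg⟩
        rw [box_iff' rfl]
        refine ⟨?_, ?_⟩
        · rw [sc_disc]
          refine mul_ne_zero (pow_ne_zero _ u.ne_zero) ?_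
          intro h0
          rw [fF_eq hf] at hirr
          apply disc_ne hirr
          have h1 := congrArg (algebraMap (𝓞 F) F) h0
          simp only [map_add, map_mul, map_pow, map_zero] at h1
          have e4 : algebraMap (𝓞 F) F 4 = 4 := map_ofNat _ 4
          have e27 : algebraMap (𝓞 F) F 27 = 27 := map_ofNat _ 27
          rw [e4, e27] at h1
          exact h1
        · exact sc_forth hu hB (hf.ht 1 (by norm_num)) (hf.ht 0 (by norm_num)))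
      (by
        intro f hf f' hf' h
        have h7 := sc_inj u h
        have e := Prod.mk.injEq .. ▸ h7
        rw [eq_pol hf.1, eq_pol hf'.1, e.1, e.2])
      (hfin.subset fun p hp => hp.1)
    exact_mod_cast h6
  calc c * (B : ℝ) ^ (5 * Module.finrank ℚ F)
      ≤ c * (C ^ 2 * ({f : (𝓞 F)[X] | Ht 1 B f}.ncard : ℝ)) :=
        mul_le_mul_of_nonneg_left hl hc.le
    _ = C ^ 2 * (c * ({f : (𝓞 F)[X] | Ht 1 B f}.ncard : ℝ)) := by ring
    _ ≤ C ^ 2 * ({f : (𝓞 F)[X] | Ht 1 B f ∧ Irreducible (fF f) ∧ SelZero f ∧ Min 1 f}.ncard : ℝ) :=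
        mul_le_mul_of_nonneg_left hm.2 (by positivity)
    _ ≤ _ := mul_le_mul_of_nonneg_left h5 (by positivity)

theorem mainBox (F : Type) [Field F] [NumberField F] : ∃ c : ℝ, 0 < c ∧ ∃ X₀ : ℝ, ∀ X : ℝ,
    {p : 𝓞 F × 𝓞 F | Box X p}.Finite ∧ (X₀ ≤ X → 0 < {p : 𝓞 F × 𝓞 F | Box X p}.ncard ∧
      c * ({p : 𝓞 F × 𝓞 F | Box X p}.ncard : ℝ) ≤
        ({p : 𝓞 F × 𝓞 F | Box X p ∧ Good p}.ncard : ℝ)) := by
  obtain ⟨-, C, hC, hlow, hup⟩ := Pool.Agent.N490.PF.pts F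
  obtain ⟨c, hc, B₀, hmain⟩ := Pool.Agent.N783.PF.main 1 F le_rfl
  obtain ⟨R, hR, hbal⟩ := exists_bal F
  set d := Module.finrank ℚ F with hd
  have hrd := rd_pos (F := F)
  have hfin : ∀ X : ℝ, {p : 𝓞 F × 𝓞 F | Box X p}.Finite := by
    intro X
    have hX1 : 1 ≤ max X 1 := le_max_right _ _
    have hX0 : 0 < max X 1 := lt_of_lt_of_le one_pos hX1
    have e : max X 1 = Real.exp (6 * (Real.log (max X 1) / 6)) := by
      rw [mul_div_cancel₀ _ (by norm_num : (6 : ℝ) ≠ 0), Real.exp_log hX0]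
    obtain ⟨u, hu⟩ := hbal (Real.log (max X 1) / 6)
    have h1 := (box_upper hC hup hR (div_nonneg (Real.log_nonneg hX1) (by norm_num)) hu).1
    rw [← e] at h1
    exact h1.subset fun p hp => box_mono (le_max_left _ _) hp
  set K : ℝ := c / (C ^ 2 * 2 ^ (5 * d)) / (C ^ 2 * 4) * Real.exp (-(20 * d * R)) with hK
  refine ⟨K, by positivity, Real.exp (6 * ((2 * R + Real.log (B₀ + 2)) / rd F)), fun X =>
    ⟨hfin X, fun hX => ?_⟩⟩
  have hX0 : 0 < X := lt_of_lt_of_le (Real.exp_pos _) hX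
  set L : ℝ := Real.log X / 6 with hL
  have e : X = Real.exp (6 * L) := by
    rw [hL, mul_div_cancel₀ _ (by norm_num : (6 : ℝ) ≠ 0), Real.exp_log hX0]
  have hB02 : (2 : ℝ) ≤ (B₀ : ℝ) + 2 := by
    have : (0 : ℝ) ≤ B₀ := Nat.cast_nonneg _
    linarith
  have hL1 : (2 * R + Real.log (B₀ + 2)) / rd F ≤ L := by
    rw [e] at hX
    have := Real.exp_le_exp.1 hX
    linarith
  have hL2 : 2 * R + Real.log (B₀ + 2) ≤ rd F * L := by
    rw [div_le_iff₀ hrd] at hL1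
    linarith
  have hlog : 0 ≤ Real.log ((B₀ : ℝ) + 2) := Real.log_nonneg (by linarith)
  have hL0 : 0 ≤ L := by
    have : 0 ≤ (2 * R + Real.log (B₀ + 2)) / rd F := div_nonneg (by linarith) hrd.le
    linarith
  obtain ⟨u, hu⟩ := hbal L
  set x : ℝ := Real.exp (rd F * L - 2 * R) with hx
  have hx2 : (B₀ : ℝ) + 2 ≤ x := by
    rw [hx, ← Real.log_le_iff_le_exp (by linarith)]
    linarith
  set B : ℕ := ⌊x⌋₊ with hBdef
  have hBx : (B : ℝ) ≤ x := Nat.floor_le (by linarith)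
  have hBx' : x < B + 1 := Nat.lt_floor_add_one x
  have hBB : B₀ ≤ B := by
    have : (B₀ : ℝ) < B := by linarith
    exact_mod_cast this.le
  have hB1 : 1 ≤ B := by
    have h0 : (0 : ℝ) ≤ B₀ := Nat.cast_nonneg _
    have : (1 : ℝ) ≤ B := by linarith
    exact_mod_cast this
  have hB2 : x / 2 ≤ B := by
    have : (1 : ℝ) ≤ B := by exact_mod_cast hB1
    linarith
  have hupp := (box_upper hC hup hR hL0 hu).2
  rw [← hd] at hupp
  have hloww := box_lower hc hC hlow hB1 (hmain B hBB) hu hBx (e ▸ hfin X)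
  rw [← e, ← hd] at hloww
  rw [← e] at hupp
  constructor
  · rw [Set.ncard_pos (hfin X)]
    refine ⟨(1, 1), ?_⟩
    show Box X (1, 1)
    rw [box_iff' e]
    refine ⟨by norm_num, fun v => ?_⟩
    have h3 : v ((1 : 𝓞 F) : F) = 1 := by
      show v (algebraMap (𝓞 F) F 1) = 1
      rw [map_one, map_one]
    have h4 : 0 ≤ L / v.mult := div_nonneg hL0 (mult_pos v).le
    exact ⟨h3.le.trans (Real.one_le_exp (by linarith)), h3.le.trans (Real.one_le_exp (by linarith))⟩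
  · have hC2 : 0 < C ^ 2 := by positivity
    have h7 : c * ((x / 2) ^ (5 * d)) ≤
        C ^ 2 * ({p : 𝓞 F × 𝓞 F | Box X p ∧ Good p}.ncard : ℝ) := by
      refine le_trans ?_ hloww
      have : 0 ≤ x / 2 := by positivity
      gcongr
    have h8 : (x / 2) ^ (5 * d) = Real.exp (5 * d * (rd F * L - 2 * R)) / 2 ^ (5 * d) := by
      rw [div_pow, hx, ← Real.exp_nat_mul]
      congr 2
      push_cast
      ring
    rw [h8] at h7
    calc K * ({p : 𝓞 F × 𝓞 F | Box X p}.ncard : ℝ)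
        ≤ K * (C ^ 2 * 4 * Real.exp ((d : ℝ) * (5 * (rd F * L) + 10 * R))) :=
          mul_le_mul_of_nonneg_left hupp (by positivity)
      _ = (c / C ^ 2) * ((Real.exp (-(20 * d * R)) *
            Real.exp ((d : ℝ) * (5 * (rd F * L) + 10 * R))) / 2 ^ (5 * d)) := by
          rw [hK]
          field_simp
      _ = (c / C ^ 2) * (Real.exp (5 * d * (rd F * L - 2 * R)) / 2 ^ (5 * d)) := by
          rw [← Real.exp_add]
          congr 3
          ring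
      _ = (c * (Real.exp (5 * d * (rd F * L - 2 * R)) / 2 ^ (5 * d))) / C ^ 2 := by ring
      _ ≤ (C ^ 2 * ({p : 𝓞 F × 𝓞 F | Box X p ∧ Good p}.ncard : ℝ)) / C ^ 2 := by gcongr
      _ = _ := by field_simp

end Pool.Agent.H30PX
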