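import Pool.Agent.N783.PF.Final

/-!
# The 2-Selmer group does not change if the equation is scaled by the square of an element
-/

set_option autoImplicit false
set_option linter.all false

open Polynomial IsDedekindDomain NumberField
open scoped Classical

namespace Pool.Agent.H30PX

open Pool.Agent.N783.PQ (LocIm)
open Pool.Agent.N874.JM (LocF)
open Pool.Agent.N874.QM (SelM)

section scale

variable {E : Type} [Field E]

theorem scale_comp (f : E[X]) (s : E) :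
    (f.scaleRoots s).comp (C s * X) = C (s ^ f.natDegree) * f := by
  have h := Polynomial.scaleRoots_eval₂_mul (p := f) (C : E →+* E[X]) X s
  unfold Polynomial.comp
  rw [h, ← C_pow]
  congr 1
  exact Polynomial.comp_X

theorem comp_mon {p : E[X]} (s : E) (hs : s ≠ 0) (hp : p.Monic) :
    (C (s⁻¹ ^ p.natDegree) * p.comp (C s * X)).Monic := by
  have h1 : (C s * X : E[X]).natDegree = 1 := natDegree_C_mul_X s hs
  have h2 : (p.comp (C s * X)).leadingCoeff = s ^ p.natDegree := by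
    rw [leadingCoeff_comp (by rw [h1]; exact one_ne_zero), hp.leadingCoeff, one_mul,
      leadingCoeff_mul, leadingCoeff_C, leadingCoeff_X, mul_one]
  unfold Monic
  rw [leadingCoeff_mul, leadingCoeff_C, h2, ← mul_pow, inv_mul_cancel₀ hs, one_pow]

theorem comp_deg (p : E[X]) (s : E) (hs : s ≠ 0) :
    (C (s⁻¹ ^ p.natDegree) * p.comp (C s * X)).natDegree = p.natDegree := by
  rw [natDegree_C_mul (pow_ne_zero _ (inv_ne_zero hs)), natDegree_comp, natDegree_C_mul_X s hs,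
    mul_one]

theorem prod_scale (s : E) (hs : s ≠ 0) (l : List (E[X] × E[X])) : ∃ c : E, c ≠ 0 ∧
    ((l.map fun p : E[X] × E[X] => ((-1) ^ (C ((s ^ 2)⁻¹ ^ p.1.natDegree) * p.1.comp (C (s ^ 2) * X)).natDegree *
      (C ((s ^ 2)⁻¹ ^ p.1.natDegree) * p.1.comp (C (s ^ 2) * X)) : E[X])).prod) =
    C (c ^ 2) * ((l.map fun p : E[X] × E[X] => (-1) ^ p.1.natDegree * p.1).prod).comp
      (C (s ^ 2) * X) := by
  have hs2 : s ^ 2 ≠ 0 := pow_ne_zero _ hs
  induction l with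
  | nil => exact ⟨1, one_ne_zero, by simp⟩
  | cons p l ih =>
    obtain ⟨c, hc, h⟩ := ih
    refine ⟨s⁻¹ ^ p.1.natDegree * c, mul_ne_zero (pow_ne_zero _ (inv_ne_zero hs)) hc, ?_⟩
    rw [List.map_cons, List.prod_cons, h, List.map_cons, List.prod_cons, comp_deg _ _ hs2]
    simp only [mul_comp, pow_comp, neg_comp, one_comp]
    have e : ((s ^ 2)⁻¹ ^ p.1.natDegree : E) = (s⁻¹ ^ p.1.natDegree) ^ 2 := by
      rw [← inv_pow, ← pow_mul, ← pow_mul, mul_comm]
    rw [e]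
    simp only [mul_pow, C_mul]
    ring

theorem dvd_comp {f h : E[X]} (q : E[X]) (hd : f ∣ h) : f.comp q ∣ h.comp q := by
  obtain ⟨k, rfl⟩ := hd
  exact ⟨k.comp q, by rw [mul_comp]⟩

theorem locIm_scale {f h : E[X]} {u : E} (hu : u ≠ 0)
    (hl : LocIm E (f.scaleRoots (u ^ 2)) h) : LocIm E f (h.comp (C (u ^ 2) * X)) := by
  obtain ⟨l, s, hl, hd⟩ := hl
  have hu2 : u ^ 2 ≠ 0 := pow_ne_zero _ hu
  have hn : (u ^ f.natDegree) ≠ 0 := pow_ne_zero _ hu
  have hn2 : (u ^ 2) ^ f.natDegree ≠ 0 := pow_ne_zero _ hu2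
  have hf : (f.scaleRoots (u ^ 2)).comp (C (u ^ 2) * X) = C ((u ^ 2) ^ f.natDegree) * f :=
    scale_comp f (u ^ 2)
  have hun : IsUnit (C ((u ^ 2) ^ f.natDegree) : E[X]) := isUnit_C.2 hn2.isUnit
  obtain ⟨c, hc, hp⟩ := prod_scale u hu l
  refine ⟨l.map fun p => (C ((u ^ 2)⁻¹ ^ p.1.natDegree) * p.1.comp (C (u ^ 2) * X),
    C (u ^ f.natDegree)⁻¹ * p.2.comp (C (u ^ 2) * X)), C c * s.comp (C (u ^ 2) * X), ?_, ?_⟩
  · intro p' hp'
    obtain ⟨p, hpl, rfl⟩ := List.mem_map.1 hp'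
    obtain ⟨h1, h2, h3⟩ := hl p hpl
    have hcu : IsUnit (C ((u ^ 2)⁻¹ ^ p.1.natDegree) : E[X]) :=
      isUnit_C.2 (pow_ne_zero _ (inv_ne_zero hu2)).isUnit
    refine ⟨comp_mon _ hu2 h1, ?_, ?_⟩
    · have h4 : IsCoprime (p.1.comp (C (u ^ 2) * X)) ((f.scaleRoots (u ^ 2)).comp (C (u ^ 2) * X)) :=
        h2.map (compRingHom (C (u ^ 2) * X))
      rw [hf] at h4
      exact (isCoprime_mul_unit_left_left hcu _ _).2 ((isCoprime_mul_unit_left_right hun _ _).1 h4)
    · have h4 := dvd_comp (C (u ^ 2) * X) h3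
      rw [sub_comp, pow_comp, hf] at h4
      show C ((u ^ 2)⁻¹ ^ p.1.natDegree) * p.1.comp (C (u ^ 2) * X) ∣
        (C (u ^ f.natDegree)⁻¹ * p.2.comp (C (u ^ 2) * X)) ^ 2 - f
      have e : (C (u ^ f.natDegree)⁻¹ * p.2.comp (C (u ^ 2) * X)) ^ 2 - f =
          C ((u ^ 2) ^ f.natDegree)⁻¹ * ((p.2.comp (C (u ^ 2) * X)) ^ 2 -
            C ((u ^ 2) ^ f.natDegree) * f) := by
        rw [mul_sub, ← mul_assoc, ← C_mul, inv_mul_cancel₀ hn2, C_1, one_mul, mul_pow, ← C_pow]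
        congr 3
        rw [inv_pow, ← pow_mul, ← pow_mul, mul_comm]
      rw [e]
      rw [hcu.mul_left_dvd]
      exact h4.mul_left _
  · have h4 := dvd_comp (C (u ^ 2) * X) hd
    rw [sub_comp, mul_comp, pow_comp, hf] at h4
    have h5 : f ∣ (h.comp (C (u ^ 2) * X)) *
        ((l.map fun p : E[X] × E[X] => (-1) ^ p.1.natDegree * p.1).prod).comp (C (u ^ 2) * X) -
        (s.comp (C (u ^ 2) * X)) ^ 2 := (dvd_mul_left _ _).trans h4
    rw [List.map_map]
    have e : ((l.map ((fun p : E[X] × E[X] => (-1) ^ p.1.natDegree * p.1) ∘ fun p =>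
        (C ((u ^ 2)⁻¹ ^ p.1.natDegree) * p.1.comp (C (u ^ 2) * X),
          C (u ^ f.natDegree)⁻¹ * p.2.comp (C (u ^ 2) * X)))).prod : E[X]) =
        C (c ^ 2) * ((l.map fun p : E[X] × E[X] => (-1) ^ p.1.natDegree * p.1).prod).comp
          (C (u ^ 2) * X) := by
      rw [← hp]
      rfl
    rw [e]
    have e2 : h.comp (C (u ^ 2) * X) * (C (c ^ 2) *
        ((l.map fun p : E[X] × E[X] => (-1) ^ p.1.natDegree * p.1).prod).comp (C (u ^ 2) * X)) -
        (C c * s.comp (C (u ^ 2) * X)) ^ 2 = C (c ^ 2) * (h.comp (C (u ^ 2) * X) *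
        ((l.map fun p : E[X] × E[X] => (-1) ^ p.1.natDegree * p.1).prod).comp (C (u ^ 2) * X) -
        (s.comp (C (u ^ 2) * X)) ^ 2) := by
      rw [mul_pow, ← C_pow]
      ring
    rw [e2]
    exact h5.mul_left _

end scale

section sel

variable {F : Type} [Field F] [NumberField F]

theorem scale_root {f : F[X]} (s : F) : eval₂ (algebraMap F (AdjoinRoot f))
    (algebraMap F (AdjoinRoot f) s * AdjoinRoot.root f) (f.scaleRoots s) = 0 := by
  rw [scaleRoots_eval₂_mul]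
  have : eval₂ (algebraMap F (AdjoinRoot f)) (AdjoinRoot.root f) f = 0 := AdjoinRoot.eval₂_root f
  rw [this, mul_zero]

theorem scale_root' {f : F[X]} {s : F} (hs : s ≠ 0) :
    eval₂ (algebraMap F (AdjoinRoot (f.scaleRoots s)))
    (algebraMap F (AdjoinRoot (f.scaleRoots s)) s⁻¹ * AdjoinRoot.root (f.scaleRoots s)) f = 0 := by
  have h := scaleRoots_eval₂_mul (p := f) (algebraMap F (AdjoinRoot (f.scaleRoots s)))
    (algebraMap F (AdjoinRoot (f.scaleRoots s)) s⁻¹ * AdjoinRoot.root (f.scaleRoots s)) s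
  rw [← mul_assoc, ← map_mul, mul_inv_cancel₀ hs, map_one, one_mul] at h
  have h0 : eval₂ (algebraMap F (AdjoinRoot (f.scaleRoots s))) (AdjoinRoot.root (f.scaleRoots s))
    (f.scaleRoots s) = 0 := AdjoinRoot.eval₂_root (f.scaleRoots s)
  rw [h0, ← map_pow] at h
  have hu : IsUnit (algebraMap F (AdjoinRoot (f.scaleRoots s)) (s ^ f.natDegree)) :=
    (pow_ne_zero _ hs).isUnit.map _
  exact (hu.mul_right_eq_zero).1 h.symm

/-- The homomorphism of the algebras. -/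
noncomputable def sc1 (f : F[X]) (s : F) : AdjoinRoot (f.scaleRoots s) →ₐ[F] AdjoinRoot f :=
  AdjoinRoot.liftAlgHom (f.scaleRoots s) (Algebra.ofId F (AdjoinRoot f))
      (algebraMap F (AdjoinRoot f) s * AdjoinRoot.root f) (scale_root s)

/-- The inverse. -/
noncomputable def sc2 (f : F[X]) {s : F} (hs : s ≠ 0) :
    AdjoinRoot f →ₐ[F] AdjoinRoot (f.scaleRoots s) :=
  AdjoinRoot.liftAlgHom f (Algebra.ofId F (AdjoinRoot (f.scaleRoots s)))
      (algebraMap F (AdjoinRoot (f.scaleRoots s)) s⁻¹ * AdjoinRoot.root (f.scaleRoots s))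
      (scale_root' hs)

theorem sc1_root (f : F[X]) (s : F) : sc1 f s (AdjoinRoot.root (f.scaleRoots s)) =
    algebraMap F (AdjoinRoot f) s * AdjoinRoot.root f :=
  AdjoinRoot.liftAlgHom_root _ _ _ _

theorem sc2_root (f : F[X]) {s : F} (hs : s ≠ 0) : sc2 f hs (AdjoinRoot.root f) =
    algebraMap F (AdjoinRoot (f.scaleRoots s)) s⁻¹ * AdjoinRoot.root (f.scaleRoots s) :=
  AdjoinRoot.liftAlgHom_root _ _ _ _

/-- The isomorphism of the algebras. -/
noncomputable def scaleEquiv {f : F[X]} {s : F} (hs : s ≠ 0) :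
    AdjoinRoot (f.scaleRoots s) ≃ₐ[F] AdjoinRoot f :=
  AlgEquiv.ofAlgHom (sc1 f s) (sc2 f hs)
    (by
      apply AdjoinRoot.algHom_ext
      rw [AlgHom.comp_apply, sc2_root, map_mul, AlgHom.commutes, sc1_root, ← mul_assoc, ← map_mul,
        inv_mul_cancel₀ hs, map_one, one_mul, AlgHom.id_apply])
    (by
      apply AdjoinRoot.algHom_ext
      rw [AlgHom.comp_apply, sc1_root, map_mul, AlgHom.commutes, sc2_root, ← mul_assoc, ← map_mul,
        mul_inv_cancel₀ hs, map_one, one_mul, AlgHom.id_apply])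

theorem scaleEquiv_mk {f : F[X]} {s : F} (hs : s ≠ 0) (h : F[X]) :
    scaleEquiv (f := f) hs (AdjoinRoot.mk _ h) = AdjoinRoot.mk f (h.comp (C s * X)) := by
  have h1 : scaleEquiv (f := f) hs (AdjoinRoot.mk _ h) = eval₂ (algebraMap F (AdjoinRoot f))
    (algebraMap F (AdjoinRoot f) s * AdjoinRoot.root f) h := rfl
  rw [h1, ← AdjoinRoot.aeval_eq, aeval_comp, aeval_mul, aeval_C, aeval_X]
  rfl

theorem selM_scale {f : F[X]} (hm : f.Monic) {u : F} (hu : u ≠ 0) (hs : SelM F f) :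
    SelM F (f.scaleRoots (u ^ 2)) := by
  intro h hcop hnorm hloc hreal
  have hu2 : u ^ 2 ≠ 0 := pow_ne_zero _ hu
  have hn2 : (u ^ 2) ^ f.natDegree ≠ 0 := pow_ne_zero _ hu2
  have hun : IsUnit (C ((u ^ 2) ^ f.natDegree) : F[X]) := isUnit_C.2 hn2.isUnit
  have hf : (f.scaleRoots (u ^ 2)).comp (C (u ^ 2) * X) = C ((u ^ 2) ^ f.natDegree) * f :=
    scale_comp f (u ^ 2)
  have k1 : IsCoprime (h.comp (C (u ^ 2) * X)) f := by
    have h4 : IsCoprime (h.comp (C (u ^ 2) * X)) ((f.scaleRoots (u ^ 2)).comp (C (u ^ 2) * X)) :=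
      hcop.map (compRingHom (C (u ^ 2) * X))
    rw [hf] at h4
    exact (isCoprime_mul_unit_left_right hun _ _).1 h4
  have k2 : IsSquare (Algebra.norm F (AdjoinRoot.mk f (h.comp (C (u ^ 2) * X)))) := by
    have e := Algebra.norm_eq_of_algEquiv (scaleEquiv (f := f) hu2) (AdjoinRoot.mk _ h)
    rw [scaleEquiv_mk] at e
    rw [e]
    exact hnorm
  have k3 : ∀ w : HeightOneSpectrum (𝓞 F),
      LocF (w.adicCompletion F) f (h.comp (C (u ^ 2) * X)) := by
    intro w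
    have h1 := hloc w
    have h2 : LocIm (w.adicCompletion F)
      ((f.scaleRoots (u ^ 2)).map (algebraMap F (w.adicCompletion F)))
      (h.map (algebraMap F (w.adicCompletion F))) := h1
    rw [map_scaleRoots _ _ _ (by rw [hm.leadingCoeff, map_one]; exact one_ne_zero), map_pow] at h2
    have h3 := locIm_scale ((_root_.map_ne_zero _).2 hu) h2
    show LocIm (w.adicCompletion F) (f.map (algebraMap F (w.adicCompletion F)))
      ((h.comp (C (u ^ 2) * X)).map (algebraMap F (w.adicCompletion F)))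
    rw [Polynomial.map_comp, Polynomial.map_mul, map_C, map_X, map_pow]
    exact h3
  have k4 : ∀ ρ : F →+* ℝ, LocIm ℝ (f.map ρ) ((h.comp (C (u ^ 2) * X)).map ρ) := by
    intro ρ
    have h2 := hreal ρ
    rw [map_scaleRoots _ _ _ (by rw [hm.leadingCoeff, map_one]; exact one_ne_zero), map_pow] at h2
    have h3 := locIm_scale ((_root_.map_ne_zero _).2 hu) h2
    rw [Polynomial.map_comp, Polynomial.map_mul, map_C, map_X, map_pow]
    exact h3
  obtain ⟨s, hs'⟩ := hs (h.comp (C (u ^ 2) * X)) k1 k2 k3 k4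
  refine ⟨s.comp (C (u ^ 2)⁻¹ * X), ?_⟩
  have h1 := dvd_comp (C (u ^ 2)⁻¹ * X) hs'
  rw [sub_comp, pow_comp, comp_assoc] at h1
  have e1 : ((C (u ^ 2) * X : F[X])).comp (C (u ^ 2)⁻¹ * X) = X := by
    rw [mul_comp, C_comp, X_comp, ← mul_assoc, ← C_mul, mul_inv_cancel₀ hu2, C_1, one_mul]
  rw [e1, comp_X] at h1
  have e2 : f.scaleRoots (u ^ 2) = C ((u ^ 2) ^ f.natDegree) * f.comp (C (u ^ 2)⁻¹ * X) := by
    have h2 := congrArg (fun q : F[X] => q.comp (C (u ^ 2)⁻¹ * X)) hf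
    simp only [comp_assoc, e1, comp_X, mul_comp, C_comp] at h2
    exact h2
  rw [e2, hun.mul_left_dvd]
  exact h1

end sel

end Pool.Agent.H30PX
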